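import Pool.Agent.H59.LIN.Targets

/-!
# MP_559314_gt, row HC: the chains `c_k`
-/

set_option autoImplicit false

namespace Pool.Agent.H55.LIN

open Pool.Agent.H59.LIN

variable {K : Type} [CommRing K]

theorem hc_gp (m l : ℕ) (h : l < m + 2) (x : MM K (m + 1)) :
    gp K m l x = (x : Fin (m + 2) → MM K m) ⟨l, h⟩ := by
  have h1 : gp K m l = (LinearMap.proj (φ := fun _ : Fin (m + 2) => MM K m) ⟨l, h⟩ :
      (Fin (m + 2) → MM K m) →ₗ[K] MM K m) := dif_pos h
  exact LinearMap.congr_fun h1 x

theorem hc_sg (m k : ℕ) (h : k < m + 2) (x : MM K m) :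
    (sg K m k x : Fin (m + 2) → MM K m) = Pi.single (⟨k, h⟩ : Fin (m + 2)) x := by
  have h1 : sg K m k = (LinearMap.single K (fun _ : Fin (m + 2) => MM K m) ⟨k, h⟩ :
      MM K m →ₗ[K] (Fin (m + 2) → MM K m)) := dif_pos h
  exact LinearMap.congr_fun h1 x

theorem hc_gs (m k l : ℕ) (hk : k < m + 2) (hl : l < m + 2) (x : MM K m) :
    gp K m l (sg K m k x) = if l = k then x else 0 := by
  rw [hc_gp m l hl]
  have h0 := congrFun (hc_sg m k hk x) ⟨l, hl⟩
  refine h0.trans ?_
  split_ifs with h
  · subst h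
    exact Pi.single_eq_same _ _
  · exact Pi.single_eq_of_ne (fun h' => h (congrArg Fin.val h')) _

theorem hc_ext (m : ℕ) (x y : MM K (m + 1)) (h : ∀ l < m + 2, gp K m l x = gp K m l y) :
    x = y := by
  have h' : ∀ l : Fin (m + 2), (x : Fin (m + 2) → MM K m) l = (y : Fin (m + 2) → MM K m) l := by
    intro l
    have := h l l.2
    rw [hc_gp m l l.2, hc_gp m l l.2] at this
    exact this
  exact funext h'

theorem hc_pim (m : ℕ) {V : Type} [AddCommGroup V] [Module K V] (F : ℕ → V →ₗ[K] MM K m)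
    (l : ℕ) (hl : l < m + 2) (v : V) : gp K m l (pim K m F v) = F l v := by
  rw [hc_gp m l hl]
  rfl

theorem hc_RR (s κ : K) (m i l : ℕ) (hl : l < m + 2) (x : MM K (m + 1)) :
    gp K m l (RR s κ (m + 1) i x) =
      if l < i then RR s κ m (i - 1) (gp K m l x)
      else if l = i then gp K m (i + 1) x + s • gp K m i x
      else if l = i + 1 then κ • gp K m i x
      else RR s κ m i (gp K m l x) := by
  rw [RR, hc_pim _ _ _ hl]
  split_ifs <;> rfl

theorem hc_RC0 (s κ : K) (m k : ℕ) (hk : m ≤ k) (x : MM K m) : RC s κ m k x = x := by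
  unfold RC
  rw [Nat.sub_eq_zero_of_le hk]
  rfl

theorem hc_RCs (s κ : K) (m k : ℕ) (hk : k < m) (x : MM K m) :
    RC s κ m k x = RR s κ m k (RC s κ m (k + 1) x) := by
  unfold RC
  obtain ⟨d, hd⟩ : ∃ d, m - k = d + 1 := ⟨m - k - 1, by omega⟩
  have hd' : m - (k + 1) = d := by omega
  rw [hd, hd', List.range'_succ, List.map_cons, List.prod_cons]
  rfl

theorem pf_HC (hHR : Pool.Agent.H59.LIN.T_HR) : Pool.Agent.H59.LIN.T_HC := by
  intro K _ s κ m
  obtain ⟨hq, hb, hf⟩ := hHR K s κ m
  refine ⟨?_, ?_, ?_⟩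
  · intro i hi x
    unfold io
    refine hc_ext m _ _ fun l hl => ?_
    rw [hc_gs _ _ _ (by omega) hl, hc_RR _ _ _ _ _ hl, hc_gs _ _ _ (by omega) hl,
      hc_gs _ _ _ (by omega) (by omega), hc_gs _ _ _ (by omega) (by omega)]
    by_cases h1 : l < i
    · rw [if_pos h1, if_neg (by omega), if_neg (by omega), map_zero]
    by_cases h2 : l = i
    · rw [if_neg h1, if_pos h2, if_neg (by omega), if_neg (by omega), if_neg (by omega),
        smul_zero, add_zero]
    by_cases h3 : l = i + 1
    · rw [if_neg h1, if_neg h2, if_pos h3, if_neg (by omega), if_neg (by omega), smul_zero]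
    rw [if_neg h1, if_neg h2, if_neg h3]
    split_ifs
    · rfl
    · rw [map_zero]
  · intro k hk x
    obtain ⟨d, hd⟩ : ∃ d, k + d = m + 1 := ⟨m + 1 - k, by omega⟩
    induction d generalizing k with
    | zero =>
      rw [hc_RC0 _ _ _ _ (by omega)]
      have : k = m + 1 := by omega
      rw [this]
      rfl
    | succ d ih =>
      rw [hc_RCs _ _ _ _ (by omega), ih (k + 1) (by omega) (by omega)]
      refine hc_ext m _ _ fun l hl => ?_
      rw [hc_gs _ _ _ (by omega) hl, hc_RR _ _ _ _ _ hl, hc_gs _ _ _ (by omega) hl,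
        hc_gs _ _ _ (by omega) (by omega), hc_gs _ _ _ (by omega) (by omega)]
      by_cases h1 : l < k
      · rw [if_pos h1, if_neg (by omega), if_neg (by omega), map_zero]
      by_cases h2 : l = k
      · rw [if_neg h1, if_pos h2, if_pos rfl, if_neg (by omega), if_pos h2,
          smul_zero, add_zero]
      by_cases h3 : l = k + 1
      · rw [if_neg h1, if_neg h2, if_pos h3, if_neg (by omega), if_neg (by omega), smul_zero]
      rw [if_neg h1, if_neg h2, if_neg h3, if_neg h3, if_neg h2, map_zero]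
  · have hA : ∀ d k i : ℕ, k + d = m → i + 1 < k → i < m → ∀ x,
        RR s κ m i (RC s κ m k x) = RC s κ m k (RR s κ m i x) := by
      intro d
      induction d with
      | zero =>
        intro k i hk _ _ x
        rw [hc_RC0 _ _ _ _ (by omega), hc_RC0 _ _ _ _ (by omega)]
      | succ d ih =>
        intro k i hk h1 h2 x
        rw [hc_RCs _ _ _ _ (by omega), hf i k h1 (by omega), ih (k + 1) i (by omega) (by omega) h2,
          ← hc_RCs _ _ _ _ (by omega)]
    have hB : ∀ d k i : ℕ, k + d = m → k < i → i < m → ∀ x,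
        RR s κ m i (RC s κ m k x) = RC s κ m k (RR s κ m (i - 1) x) := by
      intro d
      induction d with
      | zero =>
        intro k i hk h1 h2 x
        omega
      | succ d ih =>
        intro k i hk h1 h2 x
        rcases Nat.lt_or_ge (k + 1) i with h3 | h3
        · rw [hc_RCs _ _ _ _ (by omega), ← hf k i h3 h2, ih (k + 1) i (by omega) h3 h2,
            ← hc_RCs _ _ _ _ (by omega)]
        · have h4 : i = k + 1 := by omega
          subst h4
          rw [hc_RCs _ _ _ k (by omega), hc_RCs _ _ _ (k + 1) (by omega), ← hb k h2,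
            hA (m - (k + 2)) (k + 2) k (by omega) (by omega) (by omega),
            ← hc_RCs _ _ _ _ (by omega), ← hc_RCs _ _ _ _ (by omega), Nat.add_sub_cancel]
    intro k i hk hi x
    split_ifs with h1 h2 h3
    · exact hA (m - k) k i (by omega) h1 hi x
    · rw [← h2, ← hc_RCs _ _ _ _ hi]
    · rw [← h3, hc_RCs _ _ _ i hi, hq i hi]
    · exact hB (m - k) k i (by omega) (by omega) hi x

end Pool.Agent.H55.LIN
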